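import Pool.Agent.Helper68.ES.St2

/-!
# Project ES (MP_cb927e_an): module TAA, one class, the main inequality
-/

set_option autoImplicit false

open MeasureTheory Set Filter Topology
open scoped ENNReal RealInnerProductSpace

namespace Pool.Agent.Helper67.ES

open Pool.Agent.Helper68.ES Pool.Agent.Helper68.EP Pool.Agent.Helper20.RG
open Pool.Agent.Helper20.RL (RQ Rich BM Fml Hit)
open Pool.Agent.Helper68.LM (Pl BB Bd Av HL ft fm DQ)

/-! ### charges -/

lemma cg_eq_ch {p : ℝ} {u : ℕ} {J : Finset ℕ} {ω : ℤ → ℕ → Pl → ℝ≥0∞}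
    (hm : ∀ (k : ℤ) (j : ℕ), Measurable (ω k j)) (H : Set Pl) :
    ∫⁻ z in H, cg p u J ω z = ch p u J ω (fun _ _ => H) := by
  unfold cg ch
  have h1 : ∀ k : ℤ, Measurable (fun z => ∑ j ∈ J, ω k j z) := fun k =>
    Finset.measurable_sum J fun j _ => hm k j
  rw [lintegral_const_mul _ (Measurable.tsum h1)]
  congr 1
  rw [lintegral_tsum fun k => (h1 k).aemeasurable]
  congr 1
  funext k
  rw [lintegral_finsetSum J fun j _ => hm k j]

lemma ch_le_add {p : ℝ} {u r : ℕ} {J : Finset ℕ} {ω : ℤ → ℕ → Pl → ℝ≥0∞}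
    {H : Set Pl} {Y : ℤ → ℕ → Set Pl} {R : ℕ → ℤ → ℕ → Set Pl}
    (hm : ∀ (k : ℤ) (j : ℕ), Measurable (ω k j)) (hH : MeasurableSet H)
    (hY : ∀ k j, MeasurableSet (Y k j)) (hR : ∀ ρ k j, MeasurableSet (R ρ k j))
    (hc : ∀ (k : ℤ) (j : ℕ) (z : Pl), z ∈ H → ω k j z ≠ 0 →
      z ∈ Y k j ∨ ∃ ρ ∈ Finset.range (r + 1), z ∈ R ρ k j) :
    ch p u J ω (fun _ _ => H) ≤ ch p u J ω Y + ∑ ρ ∈ Finset.range (r + 1), ch p u J ω (R ρ) := by
  have h1 : ∀ k j, ∫⁻ z in H, ω k j z ≤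
      (∫⁻ z in Y k j, ω k j z) + ∑ ρ ∈ Finset.range (r + 1), ∫⁻ z in R ρ k j, ω k j z := by
    intro k j
    rw [← lintegral_indicator hH, ← lintegral_indicator (hY k j)]
    have e : ∀ ρ ∈ Finset.range (r + 1), ∫⁻ z in R ρ k j, ω k j z =
        ∫⁻ z, (R ρ k j).indicator (ω k j) z := fun ρ _ => (lintegral_indicator (hR ρ k j) _).symm
    rw [Finset.sum_congr rfl e, ← lintegral_finsetSum _ fun ρ _ => (hm k j).indicator (hR ρ k j),
      ← lintegral_add_left ((hm k j).indicator (hY k j))]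
    apply lintegral_mono
    intro z
    by_cases hz : z ∈ H
    · by_cases h0 : ω k j z = 0
      · rw [indicator_of_mem hz, h0]; exact zero_le
      · show H.indicator (ω k j) z ≤ (Y k j).indicator (ω k j) z +
          ∑ ρ ∈ Finset.range (r + 1), (R ρ k j).indicator (ω k j) z
        rw [indicator_of_mem hz]
        rcases hc k j z hz h0 with h | ⟨ρ, h2, h3⟩
        · rw [indicator_of_mem h]; exact le_self_add
        · have := Finset.single_le_sum
            (f := fun ρ => (R ρ k j).indicator (ω k j) z) (fun _ _ => zero_le) h2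
          rw [indicator_of_mem h3] at this
          exact this.trans le_add_self
    · rw [indicator_of_notMem hz]; exact zero_le
  unfold ch
  rw [← Finset.mul_sum, ← mul_add]
  refine mul_le_mul_right ?_ _
  have h2 : ∀ k : ℤ, ∑ j ∈ J, ∫⁻ z in H, ω k j z ≤
      (∑ j ∈ J, ∫⁻ z in Y k j, ω k j z) +
        ∑ ρ ∈ Finset.range (r + 1), ∑ j ∈ J, ∫⁻ z in R ρ k j, ω k j z := by
    intro k
    rw [Finset.sum_comm, ← Finset.sum_add_distrib]
    exact Finset.sum_le_sum fun j _ => h1 k j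
  refine (ENNReal.tsum_le_tsum h2).trans ?_
  rw [ENNReal.tsum_add]
  refine add_le_add le_rfl ?_
  exact (Summable.tsum_finsetSum fun _ _ => ENNReal.summable).le

/-! ### the layers of ages -/

/-- the points of `H` whose age at the scale `k` is in `[2^(q-ρ), 2^(q-ρ+1))` -/
def Rr (H : Set Pl) (κ : Pl → ℤ) (q ρ : ℕ) (k : ℤ) (_ : ℕ) : Set Pl :=
  {z | z ∈ H ∧ κ z + 2 ^ (q - ρ) ≤ k ∧ k < κ z + 2 ^ (q - ρ + 1)}

lemma meas_lt {H : Set Pl} {κ : Pl → ℤ} (hH : MeasurableSet H)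
    (hκ : ∀ b : ℤ, MeasurableSet {z | z ∈ H ∧ κ z ≤ b}) (b : ℤ) :
    MeasurableSet {z | z ∈ H ∧ b < κ z} := by
  have e : {z | z ∈ H ∧ b < κ z} = H \ {z | z ∈ H ∧ κ z ≤ b} := by
    ext z
    constructor
    · rintro ⟨h1, h2⟩
      exact ⟨h1, fun h => by have := h.2; omega⟩
    · rintro ⟨h1, h2⟩
      refine ⟨h1, ?_⟩
      by_contra h
      exact h2 ⟨h1, by omega⟩
  rw [e]
  exact hH.diff (hκ b)

lemma meas_Rr {H : Set Pl} {κ : Pl → ℤ} (hH : MeasurableSet H)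
    (hκ : ∀ b : ℤ, MeasurableSet {z | z ∈ H ∧ κ z ≤ b}) (q ρ : ℕ) (k : ℤ) (j : ℕ) :
    MeasurableSet (Rr H κ q ρ k j) := by
  have e : Rr H κ q ρ k j = {z | z ∈ H ∧ κ z ≤ k - 2 ^ (q - ρ)} ∩
      {z | z ∈ H ∧ k - 2 ^ (q - ρ + 1) < κ z} := by
    ext z
    constructor
    · rintro ⟨h1, h2, h3⟩
      exact ⟨⟨h1, by linarith⟩, ⟨h1, by linarith⟩⟩
    · rintro ⟨⟨h1, h2⟩, ⟨_, h3⟩⟩
      exact ⟨h1, by linarith, by linarith⟩
  rw [e]
  exact (hκ _).inter (meas_lt hH hκ _)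

lemma meas_Yo {H : Set Pl} {κ : Pl → ℤ} (hH : MeasurableSet H)
    (hκ : ∀ b : ℤ, MeasurableSet {z | z ∈ H ∧ κ z ≤ b}) (G k : ℤ) :
    MeasurableSet {z | z ∈ H ∧ k < κ z + G} := by
  have e : {z | z ∈ H ∧ k < κ z + G} = {z | z ∈ H ∧ k - G < κ z} := by
    ext z
    exact and_congr_right fun _ => ⟨fun h => by linarith, fun h => by linarith⟩
  rw [e]
  exact meas_lt hH hκ _

lemma exists_layer {q r : ℕ} (hr : r ≤ q) {a : ℤ} (h1 : 2 ^ (q - r) ≤ a) (h2 : a < 2 ^ (q + 1)) :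
    ∃ ρ ∈ Finset.range (r + 1), 2 ^ (q - ρ) ≤ a ∧ a < 2 ^ (q - ρ + 1) := by
  obtain ⟨n, rfl⟩ := Int.eq_ofNat_of_zero_le (le_trans (by positivity) h1)
  have h1' : 2 ^ (q - r) ≤ n := by exact_mod_cast h1
  have h2' : n < 2 ^ (q + 1) := by exact_mod_cast h2
  have hn : n ≠ 0 := by
    have : 0 < 2 ^ (q - r) := by positivity
    omega
  have a1 : q - r ≤ Nat.log 2 n := Nat.le_log_of_pow_le (by norm_num) h1'
  have a2 : Nat.log 2 n < q + 1 := Nat.log_lt_of_lt_pow hn h2'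
  refine ⟨q - Nat.log 2 n, Finset.mem_range.mpr (by omega), ?_, ?_⟩
  · have e : q - (q - Nat.log 2 n) = Nat.log 2 n := by omega
    rw [e]
    exact_mod_cast Nat.pow_log_le_self 2 hn
  · have e : q - (q - Nat.log 2 n) = Nat.log 2 n := by omega
    rw [e]
    exact_mod_cast Nat.lt_pow_succ_log_self (by norm_num) n

lemma geom_le_one {x : ℝ} (h0 : 0 ≤ x) (n : ℕ) :
    ∑ ρ ∈ Finset.range n, (1 - x) * x ^ ρ ≤ 1 := by
  rw [← Finset.mul_sum]
  have := mul_neg_geom_sum x n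
  rw [this]
  have := pow_nonneg h0 n
  linarith

lemma pigeon {V : ℝ≥0∞} {x lam : ℝ} (h0 : 0 ≤ x) (h1 : x < 1)
    (hlam : 0 < lam) {r : ℕ} {c : ℕ → ℝ≥0∞}
    (h : ENNReal.ofReal (lam / 2) * V ≤ ∑ ρ ∈ Finset.range (r + 1), c ρ) :
    ∃ ρ ∈ Finset.range (r + 1), ENNReal.ofReal ((1 - x) * x ^ ρ * lam / 2) * V ≤ c ρ := by
  by_contra hcon
  push Not at hcon
  have h2 := ENNReal.sum_lt_sum_of_nonempty (s := Finset.range (r + 1)) ⟨0, by simp⟩ hcon
  have h3 : ∑ ρ ∈ Finset.range (r + 1), ENNReal.ofReal ((1 - x) * x ^ ρ * lam / 2) * V ≤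
      ENNReal.ofReal (lam / 2) * V := by
    rw [← Finset.sum_mul]
    refine mul_le_mul_left ?_ _
    rw [← ENNReal.ofReal_sum_of_nonneg fun ρ _ => by
      have := pow_nonneg h0 ρ
      have : 0 ≤ 1 - x := by linarith
      positivity]
    apply ENNReal.ofReal_le_ofReal
    have h4 := geom_le_one h0 (r + 1)
    have e : ∑ ρ ∈ Finset.range (r + 1), (1 - x) * x ^ ρ * lam / 2 =
        (∑ ρ ∈ Finset.range (r + 1), (1 - x) * x ^ ρ) * (lam / 2) := by
      rw [Finset.sum_mul]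
      exact Finset.sum_congr rfl fun ρ _ => by ring
    rw [e]
    nlinarith
  exact absurd (h2.trans_le h3) (not_lt.mpr h)

/-! ### numbers -/

lemma num_end {C0 CH w0 X lam L1 th mt Pp Pm g S R2 Q2 Y : ℝ} (hC0 : 1 ≤ C0) (hCH : 1 ≤ CH)
    (hw0 : 0 < w0) (hw1 : w0 ≤ 1) (hX : 0 < X) (hlam : 0 < lam) (hL1 : 1 ≤ L1) (hth : 0 < th)
    (hg : 0 < g) (hPm : 0 < Pm) (hS : 0 ≤ S) (hR2 : 0 < R2) (hQ : Q2 = 64 * g * R2)
    (hY : Y * X ^ 2 = 1)
    (h : w0 * X * lam / 2 * mt * Pp / (70 * ((128 + 2) * g)) ≤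
      C0 * S * (1 + 8 * C0 * CH * Pm / lam /
        (w0 * X * lam / 2 * th / (2 * (128 + 2) * (L1 * lam))) ^ 2)) :
    lam * X * mt * Pp * R2 / Q2 ≤
      10 ^ 9 * C0 ^ 2 * CH / w0 ^ 3 * S * (1 + Pm * L1 ^ 2 * Y / (lam * th ^ 2)) := by
  have hL0 : 0 < L1 := by linarith
  have hY' : Y = 1 / X ^ 2 := by field_simp; linarith
  have hY0 : 0 < Y := by rw [hY']; positivity
  set B := Pm * L1 ^ 2 * Y / (lam * th ^ 2) with hB
  have hB0 : 0 ≤ B := by positivity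
  have e1 : lam * X * mt * Pp * R2 / Q2 =
      18200 / 64 / w0 * (w0 * X * lam / 2 * mt * Pp / (70 * ((128 + 2) * g))) := by
    rw [hQ]; field_simp; ring
  have e2 : 8 * C0 * CH * Pm / lam / (w0 * X * lam / 2 * th / (2 * (128 + 2) * (L1 * lam))) ^ 2 =
      2163200 * C0 * CH / w0 ^ 2 * B := by
    rw [hB, hY']; field_simp; ring
  rw [e2] at h
  set c2 := 2163200 * C0 * CH / w0 ^ 2 with hc2
  have hc21 : 1 ≤ c2 := by
    rw [hc2, le_div_iff₀ (by positivity)]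
    have : w0 ^ 2 ≤ 1 := by nlinarith
    nlinarith
  have h3 : 1 + c2 * B ≤ c2 * (1 + B) := by linarith
  rw [e1]
  calc 18200 / 64 / w0 * (w0 * X * lam / 2 * mt * Pp / (70 * ((128 + 2) * g)))
      ≤ 18200 / 64 / w0 * (C0 * S * (1 + c2 * B)) := mul_le_mul_of_nonneg_left h (by positivity)
    _ ≤ 18200 / 64 / w0 * (C0 * S * (c2 * (1 + B))) := by
        apply mul_le_mul_of_nonneg_left _ (by positivity)
        exact mul_le_mul_of_nonneg_left h3 (by positivity)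
    _ = 615160000 * (C0 ^ 2 * CH / w0 ^ 3 * S * (1 + B)) := by
        rw [hc2]; field_simp; ring
    _ ≤ 10 ^ 9 * (C0 ^ 2 * CH / w0 ^ 3 * S * (1 + B)) :=
        mul_le_mul_of_nonneg_right (by norm_num) (by positivity)
    _ = _ := by ring

lemma num_th {C0 CH w0 X lam L1 th Pm Er : ℝ} (hC0 : 1 ≤ C0) (hCH : 1 ≤ CH)
    (hw0 : 0 < w0) (hw1 : w0 ≤ 1) (hX : 0 < X) (hlam : 0 < lam) (hL1 : 1 ≤ L1)
    (hPm : 0 < Pm) (hXE : 1 ≤ X * Er)
    (hN : 10 ^ 9 * C0 ^ 2 * CH / w0 ^ 3 * Pm * Er * L1 ≤ lam * th) :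
    C0 * (8 * C0 * CH * Pm / lam) ≤ w0 * X * lam / 2 * th / (2 * (128 + 2) * (L1 * lam)) := by
  have hL0 : 0 < L1 := by linarith
  have e1 : C0 * (8 * C0 * CH * Pm / lam) = 8 * C0 ^ 2 * CH * Pm / lam := by ring
  have e2 : w0 * X * lam / 2 * th / (2 * (128 + 2) * (L1 * lam)) = w0 * X * th / (520 * L1) := by
    field_simp; ring
  rw [e1, e2, div_le_div_iff₀ hlam (by positivity)]
  have h1 := mul_le_mul_of_nonneg_left hN (by positivity : 0 ≤ w0 * X)
  have h2 : 8 * C0 ^ 2 * CH * Pm * (520 * L1) ≤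
      w0 * X * (10 ^ 9 * C0 ^ 2 * CH / w0 ^ 3 * Pm * Er * L1) := by
    have e3 : w0 * X * (10 ^ 9 * C0 ^ 2 * CH / w0 ^ 3 * Pm * Er * L1) =
        10 ^ 9 * (C0 ^ 2 * CH * Pm * L1) * (X * Er) * (1 / w0 ^ 2) := by
      field_simp
    have h3 : 1 ≤ 1 / w0 ^ 2 := by
      rw [le_div_iff₀ (by positivity)]; nlinarith
    have h4 : 0 < C0 ^ 2 * CH * Pm * L1 := by positivity
    rw [e3]
    calc 8 * C0 ^ 2 * CH * Pm * (520 * L1) = 4160 * (C0 ^ 2 * CH * Pm * L1) := by ring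
      _ ≤ 10 ^ 9 * (C0 ^ 2 * CH * Pm * L1) := mul_le_mul_of_nonneg_right (by norm_num) h4.le
      _ = 10 ^ 9 * (C0 ^ 2 * CH * Pm * L1) * 1 * 1 := by ring
      _ ≤ 10 ^ 9 * (C0 ^ 2 * CH * Pm * L1) * (X * Er) * (1 / w0 ^ 2) := by
          apply mul_le_mul _ h3 zero_le_one (by positivity)
          exact mul_le_mul_of_nonneg_left hXE (by positivity)
  linarith

/-! ### the theorem -/

lemma Rich.mono' {F F' : Set Pl} {s : ℝ} {a b : ℤ} {θ : ℝ} {y : Pl} (h : F ⊆ F')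
    (hr : Rich F s a b θ y) : Rich F' s a b θ y :=
  le_trans hr (measure_mono (inter_subset_inter_left _ h))

theorem hTAA (_hEFB : Pool.Agent.Helper68.EP.StEFB) (hKPF : StKPF) (hSUP : StSUP) (hAGE : StAGE)
    (hPLM : StPLM) (hDRC : StDRC) : Pool.Agent.Helper68.ES.StTAA := by
  intro p A CH ε hp1 hp2 hCH hε hε1
  obtain ⟨CA, hCA1, hCA⟩ := hAGE
  obtain ⟨CD, hCD1, hCD⟩ := hDRC
  set C0 : ℝ := max CA CD with hC0def
  have hC0 : 1 ≤ C0 := hCA1.trans (le_max_left _ _)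
  have hx0 : (0 : ℝ) < (2 : ℝ) ^ (-ε) := Real.rpow_pos_of_pos (by norm_num) _
  have hx1 : (2 : ℝ) ^ (-ε) < 1 :=
    Real.rpow_lt_one_of_one_lt_of_neg (by norm_num) (by linarith)
  set x : ℝ := (2 : ℝ) ^ (-ε) with hx
  set w0 : ℝ := 1 - x with hw0def
  have hw0 : 0 < w0 := by linarith
  have hw1 : w0 ≤ 1 := by linarith
  set C : ℝ := 10 ^ 9 * C0 ^ 2 * CH / w0 ^ 3 with hC
  have hw3 : w0 ^ 3 ≤ 1 := pow_le_one₀ hw0.le hw1
  have hCbig : 10 ^ 9 ≤ C := by
    rw [hC, le_div_iff₀ (by positivity)]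
    have h1 : 1 ≤ C0 ^ 2 := one_le_pow₀ hC0
    have h2 : 1 ≤ C0 ^ 2 * CH := one_le_mul_of_one_le_of_one_le h1 hCH
    calc (10 : ℝ) ^ 9 * w0 ^ 3 ≤ 10 ^ 9 * 1 := mul_le_mul_of_nonneg_left hw3 (by positivity)
      _ ≤ 10 ^ 9 * (C0 ^ 2 * CH) := mul_le_mul_of_nonneg_left h2 (by positivity)
      _ = _ := by ring
  refine ⟨C, by linarith, ?_⟩
  intro E H u q r J sl fl D θ m al lam Λ₁ ω hCls hChg hD hE hH hHE hV hlam hL1 hθ hθ1 hm hal
    hcgH hcgI hrq huq hN1 hN2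
  have hCH0 : 0 < CH := by linarith
  have hC00 : 0 < C0 := by linarith
  set Pm : ℝ := (2 : ℝ) ^ (-(p * u)) with hPm
  set Pp : ℝ := (2 : ℝ) ^ (p * u) with hPp
  have hPm0 : 0 < Pm := Real.rpow_pos_of_pos (by norm_num) _
  have hPp0 : 0 < Pp := Real.rpow_pos_of_pos (by norm_num) _
  set D' : ℝ := 8 * C0 * CH * Pm / lam with hD'
  have hD'0 : 0 < D' := by positivity
  have hVt : volume H ≠ ∞ := hH.2.measure_lt_top.ne
  have hms := hChg.meas
  obtain ⟨hs1, hs2, hs3, hs4⟩ := hSUP p CH E u q J sl fl D θ m ω hChg hE (by omega) hD hθ hm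
  have hex : ∀ z ∈ H, ∃ b : ℤ, z ∉ Fb E D b := by
    intro z hz
    refine (hs2 z ?_).2
    intro h0
    have := hcgH z hz
    rw [h0] at this
    exact (ENNReal.ofReal_pos.mpr hlam).ne' (le_antisymm this zero_le)
  obtain ⟨hKap, hKiff⟩ := hKPF H E D' D hH hE hHE hD'0 hD hex
  set κ : Pl → ℤ := kp H E D' D with hκ
  obtain ⟨hKm, hKd⟩ := hKap
  -- the total charge
  have hch : ENNReal.ofReal lam * volume H ≤ ch p u J ω (fun _ _ => H) := by
    rw [← cg_eq_ch hms H, ← setLIntegral_const]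
    exact setLIntegral_mono' hH.1 hcgH
  -- young charges
  have hyoung : ch p u J ω (fun k _ => {z | z ∈ H ∧ k < κ z + (2 ^ (q - r) : ℕ)}) ≤
      ENNReal.ofReal (lam / 4) * volume H := by
    have h1 := hCA p CH E H H u q (2 ^ (q - r)) J sl fl D θ m D' ω hChg hE hH hHE hH.1
      Subset.rfl hD'0 hD hCH0.le hθ hm hex
    refine h1.trans ?_
    rw [← add_mul]
    refine mul_le_mul_left ?_ _
    rw [← ENNReal.ofReal_add (by positivity) (by positivity)]
    apply ENNReal.ofReal_le_ofReal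
    have a1 : Pm * (CA * CH / D') ≤ lam / 8 := by
      have e : Pm * (CA * CH / D') = lam / 8 * (CA / C0) := by
        rw [hD']; field_simp
      rw [e]
      have : CA / C0 ≤ 1 := (div_le_one hC00).mpr (le_max_left _ _)
      calc lam / 8 * (CA / C0) ≤ lam / 8 * 1 := mul_le_mul_of_nonneg_left this (by positivity)
        _ = lam / 8 := mul_one _
    have a2 : Pm * (((2 ^ (q - r) : ℕ) : ℝ) * J.card * (35 / (m * θ))) ≤ lam / 8 := by
      have e : Pm * (((2 ^ (q - r) : ℕ) : ℝ) * J.card * (35 / (m * θ))) =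
          35 * (Pm * (2 ^ (q - r) * J.card)) / (m * θ) := by
        push_cast; field_simp
      rw [e, div_le_iff₀ (by positivity)]
      have hpos : 0 ≤ Pm * (2 ^ (q - r) * (J.card : ℝ)) := by positivity
      have : 280 * (Pm * (2 ^ (q - r) * (J.card : ℝ))) ≤ C * (Pm * (2 ^ (q - r) * (J.card : ℝ))) :=
        mul_le_mul_of_nonneg_right (by linarith) hpos
      have e2 : C * (Pm * (2 ^ (q - r) * (J.card : ℝ))) = C * Pm * (2 ^ (q - r) * J.card) := by ring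
      linarith
    linarith
  -- layers
  have hcov : ch p u J ω (fun _ _ => H) ≤
      ch p u J ω (fun k _ => {z | z ∈ H ∧ k < κ z + (2 ^ (q - r) : ℕ)}) +
        ∑ ρ ∈ Finset.range (r + 1), ch p u J ω (Rr H κ q ρ) := by
    refine ch_le_add hms hH.1 (fun k j => meas_Yo hH.1 hKm _ k)
      (fun ρ k j => meas_Rr hH.1 hKm q ρ k j) ?_
    intro k j z hz h0
    obtain ⟨-, h1, -⟩ := hChg.supp k j z h0
    have h2 : k < κ z + 2 ^ (q + 1) := by
      by_contra hcon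
      have h3 : κ z ≤ k - 2 ^ (q + 1) := by linarith
      exact h1.2 ((hKiff z hz _).mp h3).2
    by_cases h3 : k < κ z + (2 ^ (q - r) : ℕ)
    · exact Or.inl ⟨hz, h3⟩
    · right
      push_cast at h3
      obtain ⟨ρ, h4, h5, h6⟩ := exists_layer (q := q) (r := r) (by omega) (a := k - κ z)
        (by linarith) (by linarith)
      exact ⟨ρ, h4, hz, by linarith, by linarith⟩
  have hsum : ENNReal.ofReal (lam / 2) * volume H ≤
      ∑ ρ ∈ Finset.range (r + 1), ch p u J ω (Rr H κ q ρ) := by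
    have h1 := (hch.trans hcov).trans (add_le_add hyoung le_rfl)
    have e : ENNReal.ofReal lam * volume H = ENNReal.ofReal (lam / 4) * volume H +
        ENNReal.ofReal (3 * lam / 4) * volume H := by
      rw [← add_mul, ← ENNReal.ofReal_add (by positivity) (by positivity)]
      congr 2; ring
    rw [e] at h1
    have h2 : ENNReal.ofReal (lam / 4) * volume H ≠ ∞ :=
      ENNReal.mul_ne_top ENNReal.ofReal_ne_top hVt
    have h3 := (ENNReal.add_le_add_iff_left h2).mp h1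
    refine le_trans (mul_le_mul_left (ENNReal.ofReal_le_ofReal ?_) _) h3
    linarith
  obtain ⟨ρ, hρm, hρ⟩ := pigeon hx0.le hx1 hlam hsum
  have hρr : ρ ≤ r := by have := Finset.mem_range.mp hρm; omega
  -- powers
  have hXe : (2 : ℝ) ^ (-(ε * ρ)) = x ^ ρ := by
    rw [hx, ← Real.rpow_mul_natCast (by norm_num)]
    congr 1; ring
  set X : ℝ := x ^ ρ with hXdef
  have hX0 : 0 < X := pow_pos hx0 ρ
  have hX1 : X ≤ 1 := pow_le_one₀ hx0.le hx1.le
  have hXE : 1 ≤ X * (2 : ℝ) ^ (ε * r) := by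
    rw [← hXe, ← Real.rpow_add (by norm_num)]
    apply Real.one_le_rpow (by norm_num)
    have : (ρ : ℝ) ≤ r := by exact_mod_cast hρr
    nlinarith
  have hY : (2 : ℝ) ^ (2 * ε * ρ) * X ^ 2 = 1 := by
    rw [← hXe, ← Real.rpow_mul_natCast (by norm_num), ← Real.rpow_add (by norm_num)]
    have e : 2 * ε * ρ + -(ε * ρ) * ((2 : ℕ) : ℝ) = 0 := by push_cast; ring
    rw [e, Real.rpow_zero]
  -- the process lemma
  set g : ℕ := 2 ^ (q - ρ - 6) with hg
  have hg32 : 32 ≤ g := by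
    have : 2 ^ 5 ≤ 2 ^ (q - ρ - 6) := Nat.pow_le_pow_right (by norm_num) (by omega)
    simpa using this
  have hg64 : 64 * g = 2 ^ (q - ρ) := by
    rw [hg, show q - ρ = (q - ρ - 6) + 6 by omega, pow_add]
    norm_num [mul_comm]
  have hg128 : 128 * g = 2 ^ (q - ρ + 1) := by
    rw [pow_succ, ← hg64]; ring
  set lam' : ℝ := w0 * X * lam / 2 with hlam'
  have hlam'0 : 0 < lam' := by positivity
  have hρ' : ENNReal.ofReal lam' * volume H ≤ ch p u J ω (Rr H κ q ρ) := hρ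
  have hLL : 0 < Λ₁ * lam := by have : 0 < Λ₁ := by linarith
                                positivity
  obtain ⟨l, k, hFpos, ⟨z0, hz0, hz0k⟩, hPL⟩ := hPLM p CH E H u q g 128 J sl fl D θ m lam'
    (Λ₁ * lam) ω κ (Rr H κ q ρ) hChg hE hH hKm (by omega) (by norm_num)
    (fun k j => ⟨meas_Rr hH.1 hKm q ρ k j, fun z hz => hz.1, fun z hz => by
      have h1 : ((64 * g : ℕ) : ℤ) = 2 ^ (q - ρ) := by rw [hg64]; push_cast; ring
      have h2 : ((128 * g : ℕ) : ℤ) = 2 ^ (q - ρ + 1) := by rw [hg128]; push_cast; ring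
      push_cast at h1 h2
      have := hz.2.1
      have := hz.2.2
      constructor
      · linarith
      · push_cast; linarith⟩)
    hm hθ hlam'0 hLL hV hρ' hcgI
  set F : Set Pl := Ly H κ g l with hF
  have hgZ : (0 : ℤ) < (g : ℤ) := by exact_mod_cast (by omega : 0 < g)
  have hFH : F ⊆ H := fun z hz => hz.1
  have hlow : ∀ z ∈ F, l * g ≤ κ z := by
    rintro z ⟨_, h⟩
    rw [← h]
    exact Int.ediv_mul_le _ hgZ.ne'
  have hupp : ∀ z ∈ F, κ z < (l + 1) * g := by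
    rintro z ⟨_, h⟩
    rw [← h]
    exact Int.lt_ediv_add_one_mul_self _ hgZ
  have hFm : MeasurableSet F := by
    have e : F = {z | z ∈ H ∧ κ z ≤ (l + 1) * g - 1} ∩ {z | z ∈ H ∧ l * g - 1 < κ z} := by
      ext z
      constructor
      · intro hz
        have h1 := hlow z hz
        have h2 := hupp z hz
        exact ⟨⟨hz.1, by omega⟩, ⟨hz.1, by omega⟩⟩
      · rintro ⟨⟨h1, h2⟩, ⟨_, h3⟩⟩
        refine ⟨h1, ?_⟩
        have h4 : l * g ≤ κ z := by omega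
        have h5 : κ z < (l + 1) * g := by omega
        exact (Int.ediv_eq_iff_of_pos hgZ).mpr ⟨h4, by linarith⟩
    rw [e]
    exact (hKm _).inter (meas_lt hH.1 hKm _)
  have hFB : BM F := ⟨hFm, hH.2.subset hFH⟩
  -- the dual ridge theorem
  set th' : ℝ := lam' * θ / (2 * (128 + 2) * (Λ₁ * lam)) with hth'
  have hth'1 : th' ≤ 1 := by
    have hL0 : 0 < Λ₁ := by linarith
    rw [hth', hlam', div_le_one (by positivity)]
    have h1 : w0 * X * θ ≤ 1 := by
      have := mul_le_mul hw1 hX1 hX0.le zero_le_one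
      have h2 := mul_le_mul this hθ1 hθ.le (by norm_num)
      linarith
    have h3 : w0 * X * lam / 2 * θ = lam * (w0 * X * θ) / 2 := by ring
    rw [h3]
    have h4 : lam * (w0 * X * θ) ≤ lam * 1 := mul_le_mul_of_nonneg_left h1 hlam.le
    have h5 : lam ≤ Λ₁ * lam := by nlinarith
    linarith
  have hCDth : CD * D' ≤ th' := by
    have h1 := num_th (C0 := C0) (CH := CH) (w0 := w0) (X := X) (lam := lam) (L1 := Λ₁)
      (th := θ) (Pm := Pm) (Er := (2 : ℝ) ^ (ε * r)) hC0 hCH hw0 hw1 hX0 hlam hL1 hPm0 hXE hN2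
    refine le_trans ?_ h1
    exact mul_le_mul_of_nonneg_right (le_max_right _ _) hD'0.le
  set nst : ℝ := 1 + (2 : ℝ) ^ u * (al * (2 : ℝ) ^ (2 * ((ρ : ℤ) + 6) - q)) ^ (1 / p) with hnst
  have hnst1 : 1 ≤ nst := by
    have : 0 ≤ (2 : ℝ) ^ u * (al * (2 : ℝ) ^ (2 * ((ρ : ℤ) + 6) - q)) ^ (1 / p) := by positivity
    linarith
  have huk : (l + 1) * g + 18 * g ≤ k - (u : ℤ) := by
    have h1 := hlow z0 hz0
    have h2 : 2 ^ (q - r - 6) ≤ g := by
      rw [hg]; exact Nat.pow_le_pow_right (by norm_num) (by omega)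
    have h3 : u ≤ 45 * g := huq.trans (Nat.mul_le_mul_left _ h2)
    have h4 : (u : ℤ) ≤ 45 * (g : ℤ) := by exact_mod_cast h3
    have e : (l + 1) * (g : ℤ) + 18 * g = l * g + 19 * g := by ring
    rw [e]
    linarith
  have hDn : Dn F D' ((l + 1) * g) := by
    intro z hz b' hb'
    refine (measure_mono (inter_subset_inter_left _ hFH)).trans ?_
    exact hKd z (hFH hz) b' ((hupp z hz).le.trans hb')
  have hDR := hCD J g u sl fl F k ((l + 1) * g) D' th' nst hCls.slope hFB hD'0 hCDth hth'1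
    (by omega) huk hDn hnst1 (fun j hj => by
      have h1 := hCls.near j hj (ρ + 6) (by omega) (by omega)
      have e1 : q - (ρ + 6) = q - ρ - 6 := by omega
      rw [e1] at h1
      have e2 : (2 * ((ρ + 6 : ℕ) : ℤ) - (q : ℤ)) = 2 * ((ρ : ℤ) + 6) - q := by push_cast; ring
      rw [e2] at h1
      exact h1)
  have hcomb := hPL.trans ((Finset.sum_le_sum fun j _ => by
    refine measure_mono ?_
    rintro z ⟨h1, h2⟩
    refine ⟨h1.2, ?_⟩
    have e : lam' * θ / (2 * (((128 : ℕ) : ℝ) + 2) * (Λ₁ * lam)) = th' := by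
      rw [hth']; norm_num
    rw [e] at h2
    exact Rich.mono' inter_subset_right h2).trans hDR)
  have hFt : volume F ≠ ∞ := hFB.2.measure_lt_top.ne
  have hreal := (ENNReal.mul_le_mul_iff_left hFpos.ne' hFt).mp hcomb
  rw [ENNReal.ofReal_le_ofReal_iff (by positivity)] at hreal
  refine ⟨ρ, hρr, ?_⟩
  rw [hXe]
  refine num_end (C0 := C0) (g := (g : ℝ)) hC0 hCH hw0 hw1 hX0 hlam hL1 hθ
    (by exact_mod_cast (by omega : 0 < g)) hPm0 (by linarith) (by positivity) ?_ hY ?_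
  · have : (64 * g * 2 ^ ρ : ℕ) = 2 ^ q := by
      rw [hg64, ← pow_add]; congr 1; omega
    exact_mod_cast this.symm
  · have e : lam' * (m * θ) * Pp / (70 * ((((128 : ℕ) : ℝ) + 2) * (g : ℝ))) =
        w0 * X * lam / 2 * (m * θ) * Pp / (70 * ((128 + 2) * (g : ℝ))) := by
      rw [hlam']; norm_num
    rw [e] at hreal
    refine hreal.trans ?_
    have h1 : 0 ≤ 1 + D' / th' ^ 2 := by positivity
    exact mul_le_mul_of_nonneg_right
      (mul_le_mul_of_nonneg_right (le_max_right _ _) (by linarith)) h1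

end Pool.Agent.Helper67.ES
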